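import Pool.Agent.Helper18_X2.Stmts

/-!
# AWC, part X2: module CLS
-/

set_option autoImplicit false

namespace Pool.Agent.PP.X2.H69

open Pool.Agent.Helper51_AWC Pool.Agent.Helper79_WRA Pool.Agent.PP Pool.Agent.PP.X2

/-- CLS: passage to a normal subgroup. -/
theorem cls (hnre : NreStmt) (hmda : MdaStmt) : ClsStmt := by
  intro ℓ 𝒜 H _ _ N N₂ hN₂ hle hcls
  obtain ⟨E, hE, hEN, hlay, hmod⟩ := hcls
  obtain ⟨E₂, hE₂, _, hE₂N, hlay₂, hcomm⟩ := hnre ℓ 𝒜 H E N₂ hE hN₂ hlay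
  refine ⟨E₂, hE₂, hE₂N, hlay₂, ?_⟩
  intro S _ _ hS hℓ K hK f hf htriv
  refine hmod S hS hℓ K (hK.trans hle) f hf ?_
  refine hmda H S hS K E f hf ?_ ?_
  · rw [Subgroup.normalizer_eq_top_iff.mpr hE]
    exact le_top
  · intro x y hx hy
    have h1 : f (x * y * x⁻¹ * y⁻¹) = 1 := by
      apply htriv
      exact hcomm x hx (hK x.2) y hy (hK y.2)
    rw [map_mul, map_mul, map_mul, map_inv, map_inv, mul_inv_eq_one, mul_inv_eq_iff_eq_mul] at h1
    exact h1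

end Pool.Agent.PP.X2.H69
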